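import Pool.Agent.W957.CH.Stm
import Pool.Agent.W957.CH.StmB

set_option autoImplicit false

/-! CH-NOEC and CH-U2: pieces without end clumps. -/

namespace Pool.Agent.W196.CH

open Finset Pool.Agent.W957.CH

section paths
variable {V : Type} {G : SimpleGraph V}

theorem PF_single (x : V) : PF G x x [x] := by
  refine ⟨⟨by simp, by simp⟩, by simp, by simp⟩

theorem PF_rev {u v : V} {l : List V} (h : PF G u v l) : PF G v u l.reverse := by
  obtain ⟨⟨h1, h2⟩, h3, h4⟩ := h
  refine ⟨⟨List.nodup_reverse.2 h1, ?_⟩, ?_, ?_⟩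
  · rw [List.isChain_reverse]
    exact h2.imp fun a b hab => hab.symm
  · rw [List.head?_reverse]; exact h4
  · rw [List.getLast?_reverse]; exact h3

theorem PF_extend {u p w : V} {l : List V} {P : V → Prop} (h : PF G u p l) (hP : ∀ x ∈ l, P x)
    (hadj : G.Adj p w) (hw : P w) : ∃ l', PF G u w l' ∧ ∀ x ∈ l', P x := by
  classical
  obtain ⟨⟨h1, h2⟩, h3, h4⟩ := h
  have hne : l ≠ [] := by
    rintro rfl
    simp at h3
  by_cases hwl : w ∈ l
  · obtain ⟨l1, l2, rfl⟩ := List.append_of_mem hwl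
    refine ⟨l1 ++ [w], ⟨⟨?_, ?_⟩, ?_, ?_⟩, ?_⟩
    · have : (l1 ++ [w]).Sublist (l1 ++ w :: l2) := by
        apply List.Sublist.append_left
        simp
      exact this.nodup h1
    · have : l1 ++ w :: l2 = (l1 ++ [w]) ++ l2 := by simp
      rw [this] at h2
      exact h2.left_of_append
    · cases l1 with
      | nil => simpa using h3
      | cons a l1 => simpa using h3
    · simp
    · intro x hx
      apply hP
      rw [List.mem_append] at hx ⊢
      rcases hx with hx | hx
      · exact Or.inl hx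
      · right
        simp at hx
        simp [hx]
  · refine ⟨l ++ [w], ⟨⟨?_, ?_⟩, ?_, ?_⟩, ?_⟩
    · rw [List.nodup_append]
      refine ⟨h1, by simp, ?_⟩
      intro a ha b hb
      simp at hb
      subst hb
      rintro rfl
      exact hwl ha
    · rw [List.isChain_append]
      refine ⟨h2, by simp, ?_⟩
      intro x hx y hy
      rw [h4] at hx
      simp at hx hy
      subst hx
      subst hy
      exact hadj
    · rw [List.head?_append_of_ne_nil _ hne]; exact h3
    · simp
    · intro x hx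
      rw [List.mem_append] at hx
      rcases hx with hx | hx
      · exact hP x hx
      · simp at hx
        rw [hx]; exact hw

theorem exit {C : Finset V} : ∀ (l : List V) (u v : V), l.IsChain G.Adj → l.head? = some u →
    l.getLast? = some v → u ∈ C → v ∉ C → ∃ p w, p ∈ C ∧ w ∉ C ∧ G.Adj p w ∧ w ∈ l := by
  intro l
  induction l with
  | nil => intro u v _ h; simp at h
  | cons x l ih =>
    intro u v hc hh hl hu hv
    cases l with
    | nil =>
      simp at hh hl
      subst hh
      subst hl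
      exact absurd hu hv
    | cons y l =>
      simp at hh
      subst hh
      rw [List.isChain_cons_cons] at hc
      by_cases hy : y ∈ C
      · obtain ⟨p, w, h1, h2, h3, h4⟩ := ih y v hc.2 (by simp) (by simpa using hl) hy hv
        exact ⟨p, w, h1, h2, h3, List.mem_cons_of_mem _ h4⟩
      · exact ⟨x, y, hu, hy, hc.1, by simp⟩

end paths

theorem mem_nbr {V : Type} {G : SimpleGraph V} {A P : Finset V} {w : V} :
    w ∈ nbr G A P ↔ w ∈ A ∧ w ∉ P ∧ ∃ p ∈ P, G.Adj p w := by
  classical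
  unfold nbr
  rw [Finset.mem_filter]

/-- if there is a pendant set there is an end clump -/
theorem exists_EC {V : Type} [DecidableEq V] {G : SimpleGraph V} {W T S : Finset V}
    (h : Pen G W T S) : ∃ S, EC G W T S := by
  induction S using Finset.strongInduction with
  | H S ih =>
    by_cases hex : ∃ S', S' ⊂ S ∧ Pen G W T S'
    · obtain ⟨S', h1, h2⟩ := hex
      exact ih S' h1 h2
    · push Not at hex
      exact ⟨S, h, hex⟩

/-- three elements of a set of natural numbers -/
theorem three_elems (s : Finset ℕ) (h : 3 ≤ s.card) :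
    ∃ p1 ∈ s, ∃ p2 ∈ s, ∃ p3 ∈ s, p1 < p2 ∧ p2 < p3 := by
  have hc : s.card = s.card := rfl
  let f := s.orderEmbOfFin hc
  refine ⟨f ⟨0, by omega⟩, s.orderEmbOfFin_mem hc _, f ⟨1, by omega⟩, s.orderEmbOfFin_mem hc _,
    f ⟨2, by omega⟩, s.orderEmbOfFin_mem hc _, ?_, ?_⟩
  · apply f.strictMono
    exact Fin.mk_lt_mk.2 (by norm_num)
  · apply f.strictMono
    exact Fin.mk_lt_mk.2 (by norm_num)

theorem t_NOEC (h1 : S_EAR) (h2 : S_A) (h3 : S_FAN) : S_NOEC := by
  classical
  intro V _ X n c a b W hOk hGood hPc hab hbn hFree h2n hatt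
  by_contra hno
  have hnoPen : ∀ S, ¬ Pen X.G W ∅ S := fun S hS => hno (exists_EC hS)
  obtain ⟨p1, hp1, p2, hp2, p3, hp3, h12, h23⟩ := three_elems _ hatt
  unfold att at hp1 hp2 hp3
  rw [Finset.mem_filter, Finset.mem_Icc] at hp1 hp2 hp3
  obtain ⟨⟨ha1, hb1⟩, x1, hx1, hadj1⟩ := hp1
  obtain ⟨⟨ha2, hb2⟩, x2, hx2, hadj2⟩ := hp2
  obtain ⟨⟨ha3, hb3⟩, x3, hx3, hadj3⟩ := hp3
  have hA := h2 V X n c a b W ∅ hOk hGood hPc hab hbn hFree h2n hatt
  have hn12 : x1 ≠ x2 := by
    rintro rfl
    have := hA x1 hx1 p1 ha1 hb1 hadj1 p2 (by omega) hadj2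
    omega
  have hn13 : x1 ≠ x3 := by
    rintro rfl
    have := hA x1 hx1 p1 ha1 hb1 hadj1 p3 (by omega) hadj3
    omega
  have hn23 : x2 ≠ x3 := by
    rintro rfl
    have := hA x2 hx2 p2 ha2 hb2 hadj2 p3 (by omega) hadj3
    omega
  have hfan := h3 V X.G W {x1, x2} x3 hx3 (by
      intro x hx
      simp only [Finset.mem_insert, Finset.mem_singleton] at hx
      rcases hx with rfl | rfl
      · exact hx1
      · exact hx2) (by
      simp only [Finset.mem_insert, Finset.mem_singleton]
      rintro (h | h)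
      · exact hn13 h.symm
      · exact hn23 h.symm) ⟨x1, by simp⟩ (by
      intro u hu hux
      by_contra hcon
      push Not at hcon
      -- the set reachable from `x3` in `W` minus `u`
      set C : Finset V := W.filter (fun y => ∃ l, PF X.G x3 y l ∧ ∀ x ∈ l, x ∈ W ∧ x ≠ u) with hC
      have hx3C : x3 ∈ C := by
        rw [hC, Finset.mem_filter]
        refine ⟨hx3, [x3], PF_single x3, ?_⟩
        intro x hx
        simp at hx
        rw [hx]
        exact ⟨hx3, fun h => hux h.symm⟩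
      have hnC : ∀ t ∈ ({x1, x2} : Finset V), t ∉ C := by
        intro t ht htC
        rw [hC, Finset.mem_filter] at htC
        obtain ⟨_, l, hl, hl2⟩ := htC
        obtain ⟨x, hxl, hx⟩ := hcon t ht l hl
        exact (hl2 x hxl).2 (hx (hl2 x hxl).1)
      have hnb1 : nbr X.G W C ⊆ {u} := by
        intro w hw
        rw [mem_nbr] at hw
        obtain ⟨hwW, hwC, p, hp, hpw⟩ := hw
        rw [Finset.mem_singleton]
        by_contra hwu
        apply hwC
        rw [hC, Finset.mem_filter] at hp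
        obtain ⟨_, l, hl, hl2⟩ := hp
        obtain ⟨l', hl', hl2'⟩ := PF_extend (P := fun x => x ∈ W ∧ x ≠ u) hl hl2 hpw ⟨hwW, hwu⟩
        rw [hC, Finset.mem_filter]
        exact ⟨hwW, l', hl', hl2'⟩
      have hnb2 : (nbr X.G W C).Nonempty := by
        obtain ⟨l, hl, hlW⟩ := hPc.con.2 x3 hx3 x1 hx1
        obtain ⟨p, w, hp, hw, hpw, hwl⟩ := exit l x3 x1 hl.1.2 hl.2.1 hl.2.2 hx3C
          (hnC x1 (by simp))
        exact ⟨w, mem_nbr.2 ⟨hlW w hwl, hw, p, hp, hpw⟩⟩
      have hnb : nbr X.G W C = {u} := by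
        rcases Finset.subset_singleton_iff.1 hnb1 with h | h
        · rw [h] at hnb2; exact absurd hnb2 (by simp)
        · exact h
      apply hnoPen C
      refine ⟨⟨x3, hx3C⟩, Finset.filter_subset _ _, by simp, by rw [hnb]; simp, ?_⟩
      intro hsub
      rw [hnb] at hsub
      have e1 : x1 = u := by
        have := hsub hx1
        rw [Finset.mem_union, Finset.mem_singleton] at this
        exact this.resolve_left (hnC x1 (by simp))
      have e2 : x2 = u := by
        have := hsub hx2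
        rw [Finset.mem_union, Finset.mem_singleton] at this
        exact this.resolve_left (hnC x2 (by simp))
      exact hn12 (e1.trans e2.symm))
  obtain ⟨s, hs, t, ht, hst, l1, l2, hPF, hW⟩ := hfan
  -- an ear from `p1` to `p2` containing `x3`
  have hear : ∃ R : List V, PF X.G x1 x2 R ∧ x3 ∈ R ∧ ∀ x ∈ R, x ∈ W := by
    simp only [Finset.mem_insert, Finset.mem_singleton] at hs ht
    rcases hs with rfl | rfl
    · rcases ht with rfl | rfl
      · exact absurd rfl hst
      · exact ⟨_, hPF, by simp, hW⟩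
    · rcases ht with rfl | rfl
      · exact ⟨_, PF_rev hPF, by simp, fun x hx => hW x (List.mem_reverse.1 hx)⟩
      · exact absurd rfl hst
  obtain ⟨R, hR, hx3R, hRW⟩ := hear
  have hEar : Ear X n c p1 p2 R := by
    refine ⟨⟨x1, x2, hR, hadj1.symm, hadj2⟩, ?_⟩
    intro x hx
    refine ⟨hPc.sub (hRW x hx), ?_⟩
    exact Finset.disjoint_left.1 hPc.dis (hRW x hx)
  obtain ⟨-, hii, -⟩ := h1 V X n c p1 p2 R hOk hGood h12 (by omega)
    (fun i hi1 hi2 => hFree i (by omega) (by omega)) (by omega) hEar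
  rcases hii x3 hx3R p3 (by omega) (Or.inr h23.le) hadj3 with h | h
  · omega
  · omega

theorem t_U2 (h1 : S_NOEC) (h2 : S_EC3) (_h3 : S_A) : S_U2 := by
  classical
  intro V _ X n c a b K hOk hGood hComp hKB hab hbn hFree h8
  by_contra hcon
  push Not at hcon
  obtain ⟨hCon, hKA, hKd, hKn⟩ := hComp
  have hn3 : 3 ≤ n := hGood.cr.three
  have hin : ∀ i, i < n → At X c K i → a ≤ i ∧ i ≤ b := by
    intro i hi hAt
    by_contra hc
    have h4 : i < a ∨ b < i := by omega
    exact hcon i hi h4 hAt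
  have hnbr : ∀ w ∈ nbr X.G X.A K, ∃ i, i < n ∧ c i = w ∧ a ≤ i ∧ i ≤ b ∧ At X c K i := by
    intro w hw
    have hwi := hKn hw
    unfold img at hwi
    rw [Finset.mem_image] at hwi
    obtain ⟨i, hi, hiw⟩ := hwi
    rw [Finset.mem_range] at hi
    rw [mem_nbr] at hw
    obtain ⟨_, _, p, hp, hpw⟩ := hw
    have hAt : At X c K i := ⟨p, hp, by rw [hiw]; exact hpw⟩
    obtain ⟨h4, h5⟩ := hin i hi hAt
    exact ⟨i, hi, hiw, h4, h5, hAt⟩
  have hcimg : ∀ i, i < n → c i ∈ img n c := by
    intro i hi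
    unfold img
    exact Finset.mem_image.2 ⟨i, Finset.mem_range.2 hi, rfl⟩
  have hcK : ∀ i, i < n → c i ∉ K := fun i hi h => Finset.disjoint_left.1 hKd h (hcimg i hi)
  -- a position outside `[a,b]`
  obtain ⟨i0, hi0, hi0'⟩ : ∃ i, i < n ∧ (i < a ∨ b < i) := by
    by_cases ha : 0 < a
    · exact ⟨0, by omega, Or.inl ha⟩
    · exact ⟨n - 1, by omega, Or.inr (by omega)⟩
  have hKne : K ∪ nbr X.G X.A K ≠ X.A := by
    intro h
    have h4 : c i0 ∈ K ∪ nbr X.G X.A K := by rw [h]; exact hGood.sub i0 hi0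
    rw [Finset.mem_union] at h4
    rcases h4 with h4 | h4
    · exact hcK i0 hi0 h4
    · obtain ⟨i, hi, hiw, h5, h6, _⟩ := hnbr _ h4
      have := hGood.cr.inj i i0 hi hi0 hiw
      omega
  have h3n := (hOk.reg K hKA hCon.1 hKB hKne).1
  have hatt : 3 ≤ (att X.G c a b K).card := by
    refine h3n.trans ?_
    have hsub : nbr X.G X.A K ⊆ (att X.G c a b K).image c := by
      intro w hw
      obtain ⟨i, hi, hiw, h5, h6, h7⟩ := hnbr w hw
      refine Finset.mem_image.2 ⟨i, ?_, hiw⟩
      unfold att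
      rw [Finset.mem_filter, Finset.mem_Icc]
      exact ⟨⟨h5, h6⟩, h7⟩
    exact (Finset.card_le_card hsub).trans Finset.card_image_le
  have hPc : Pc X n c K ∅ := by
    refine ⟨hCon, hKA, hKd, Finset.empty_subset _, ?_, ?_⟩
    · intro x hx
      rw [Finset.mem_inter] at hx
      exact absurd hx.1 (Finset.disjoint_left.1 hKB hx.2)
    · intro v hv _ w hw
      rw [mem_nbr] at hw
      obtain ⟨hwA, _, p, hp, hpw⟩ := hw
      rw [Finset.mem_singleton] at hp
      subst hp
      rw [Finset.mem_union]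
      by_cases hwK : w ∈ K
      · exact Or.inl hwK
      · exact Or.inr (hKn (mem_nbr.2 ⟨hwA, hwK, p, hv, hpw⟩))
  obtain ⟨S, hS⟩ := h1 V X n c a b K hOk hGood hPc hab hbn hFree (by omega) hatt
  have hEC := h2 V X n c a b K ∅ S hOk hGood hPc hab hbn hFree (by omega) hatt hS
  obtain ⟨⟨hSne, hSK, -, hScard, -⟩, -⟩ := hS
  have hnS : nbr X.G X.A S ⊆ nbr X.G K S := by
    intro w hw
    rw [mem_nbr] at hw ⊢
    obtain ⟨hwA, hwS, p, hp, hpw⟩ := hw
    refine ⟨?_, hwS, p, hp, hpw⟩
    by_contra hwK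
    have hwn : w ∈ nbr X.G X.A K := mem_nbr.2 ⟨hwA, hwK, p, hSK hp, hpw⟩
    obtain ⟨i, hi, hiw, h5, h6, _⟩ := hnbr w hwn
    apply hEC p hp i h5 h6
    rw [hiw]; exact hpw
  have hSne2 : S ∪ nbr X.G X.A S ≠ X.A := by
    intro h
    have h4 : c 0 ∈ S ∪ nbr X.G X.A S := by rw [h]; exact hGood.sub 0 (by omega)
    rw [Finset.mem_union] at h4
    rcases h4 with h4 | h4
    · exact hcK 0 (by omega) (hSK h4)
    · have h5 := hnS h4
      rw [mem_nbr] at h5
      exact hcK 0 (by omega) h5.1
  have h4 := (hOk.reg S (hSK.trans hKA) hSne (Finset.disjoint_of_subset_left hSK hKB) hSne2).1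
  have h5 := Finset.card_le_card hnS
  omega

end Pool.Agent.W196.CH
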